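import Pool.Agent.Mg.Fd2168f.G14d59c

namespace Pool.Agent.Results.MP_d2168f_ag.PythagorasEq

open Pool.Agent.MP_d2168f_ag

/-- For a formally real field `K` and a `K`-rational affine surface `X` with coordinate ring `B`
that is nonsingular at its `K`-points, the ring of regular functions and the function field have
the same Pythagoras number. -/
theorem result (K : Type*) [Field K] (hK : ¬ IsSumSq (-1 : K))
    (B : Type*) [CommRing B] [IsDomain B] [Algebra K B] [Algebra.FiniteType K B]
    (hreg : ∀ (p : Ideal B) [p.IsPrime], (∃ x : B →ₐ[K] K, p = RingHom.ker x) →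
      IsRegularLocalRing (Localization.AtPrime p))
    (hrat : Nonempty (FractionRing B ≃ₐ[K] FractionRing (MvPolynomial (Fin 2) K))) :
    pythagorasNumber (Localization (nonvanishing K B)) = pythagorasNumber (FractionRing B) :=
  pythagoras_eq hK hreg hrat

end Pool.Agent.Results.MP_d2168f_ag.PythagorasEq
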