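import Pool.Agent.MP_d2168f_ag.Sq.Pos
import Pool.Agent.MP_d2168f_ag.Sq.Neg

namespace Pool.Agent.Results.MP_d2168f_ag.SquaresDescent

open Pool.Agent.MP_d2168f_ag.Sq

/-- On all affine surfaces over formally real fields `K` that are nonsingular at their `K`-points,
rational or not, a regular function that is a sum of `n` squares of rational functions is a sum of
`n` squares of regular functions, if and only if `n ≠ 2`. -/
theorem result (n : ℕ) :
    (∀ (K : Type) [Field K], ¬ IsSumSq (-1 : K) →
      ∀ (B : Type) [CommRing B] [IsDomain B] [Algebra K B] [Algebra.FiniteType K B],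
        Algebra.trdeg K (FractionRing B) = 2 →
        (∀ (p : Ideal B) [p.IsPrime], (∃ x : B →ₐ[K] K, p = RingHom.ker x) →
          IsRegularLocalRing (Localization.AtPrime p)) →
        ∀ e : Fin n → FractionRing B, IsRegFn K B (∑ i, e i ^ 2) →
          ∃ a : Fin n → FractionRing B,
            (∀ i, IsRegFn K B (a i)) ∧ ∑ i, a i ^ 2 = ∑ i, e i ^ 2) ↔ n ≠ 2 := by
  refine ⟨fun h hn => ?_, fun hn K _ hK B _ _ _ _ => pos hn K hK B⟩
  subst hn
  obtain ⟨e, he, hne⟩ := neg
  exact hne (h ℝ (fun h1 => by linarith [h1.nonneg]) S2 S2_trdeg S2_regular e he)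

end Pool.Agent.Results.MP_d2168f_ag.SquaresDescent
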